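import Pool.Agent.H88.L.W476.TP.Stm

/-!
TP-APP: approximation of a weighted homogeneous polynomial by a polynomial with `p`-power roots.
-/

set_option autoImplicit false

namespace Pool.Agent.W476.TP

namespace App101

open MvPolynomial

variable {p : ℕ} {C L : Type} [NormedField C] [Field L]

/-- the norm of the tilt -/
noncomputable def nu (S : Sharp p C L) (u : L) : ℝ := ‖S.sh u‖

lemma nu_nonneg (S : Sharp p C L) (u : L) : 0 ≤ nu S u := norm_nonneg _

lemma nu_mul (S : Sharp p C L) (u v : L) : nu S (u * v) = nu S u * nu S v := by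
  unfold nu; rw [map_mul, norm_mul]

lemma nu_pow (S : Sharp p C L) (u : L) (k : ℕ) : nu S (u ^ k) = nu S u ^ k := by
  unfold nu; rw [map_pow, norm_pow]

lemma nu_zero (S : Sharp p C L) : nu S 0 = 0 := by
  unfold nu; rw [map_zero, norm_zero]

lemma nu_prod (S : Sharp p C L) {ι : Type} (s : Finset ι) (u : ι → L) :
    nu S (∏ i ∈ s, u i) = ∏ i ∈ s, nu S (u i) := by
  unfold nu; rw [map_prod, norm_prod]

lemma nu_neg (S : Sharp p C L) (u : L) : nu S (-u) = nu S u := by
  have h1 : nu S (-1) = 1 := by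
    have h2 : nu S (-1) ^ 2 = 1 := by
      rw [← nu_pow]
      unfold nu
      simp
    nlinarith [nu_nonneg S (-1)]
  rw [neg_eq_neg_one_mul, nu_mul, h1, one_mul]

variable [IsUltrametricDist C]

lemma nu_add (S : Sharp p C L) (hp : ‖(p : C)‖ < 1) (u v : L) :
    nu S (u + v) ≤ max (nu S u) (nu S v) := by
  have h1 := S.add u v
  have h2 : S.sh (u + v) = (S.sh (u + v) - (S.sh u + S.sh v)) + (S.sh u + S.sh v) := by ring
  unfold nu
  rw [h2]
  refine (IsUltrametricDist.norm_add_le_max _ _).trans (max_le ?_ ?_)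
  · refine h1.trans ?_
    have h3 : 0 ≤ max ‖S.sh u‖ ‖S.sh v‖ := le_max_of_le_left (norm_nonneg _)
    nlinarith
  · exact IsUltrametricDist.norm_add_le_max _ _

lemma nu_add_le (S : Sharp p C L) (hp : ‖(p : C)‖ < 1) {u v : L} {B : ℝ} (hu : nu S u ≤ B)
    (hv : nu S v ≤ B) : nu S (u + v) ≤ B := (nu_add S hp u v).trans (max_le hu hv)

lemma nu_sum_le (S : Sharp p C L) (hp : ‖(p : C)‖ < 1) {ι : Type} (s : Finset ι) (u : ι → L)
    {B : ℝ} (hB : 0 ≤ B) (h : ∀ i ∈ s, nu S (u i) ≤ B) : nu S (∑ i ∈ s, u i) ≤ B := by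
  classical
  induction s using Finset.induction_on with
  | empty => simpa [nu_zero] using hB
  | insert a s ha ih =>
    rw [Finset.sum_insert ha]
    exact nu_add_le S hp (h a (Finset.mem_insert_self a s))
      (ih fun i hi => h i (Finset.mem_insert_of_mem hi))

lemma nu_sum_lt (S : Sharp p C L) (hp : ‖(p : C)‖ < 1) {ι : Type} (s : Finset ι) (u : ι → L)
    {B : ℝ} (hB : 0 < B) (h : ∀ i ∈ s, nu S (u i) < B) : nu S (∑ i ∈ s, u i) < B := by
  classical
  induction s using Finset.induction_on with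
  | empty => simpa [nu_zero] using hB
  | insert a s ha ih =>
    rw [Finset.sum_insert ha]
    exact (nu_add S hp _ _).trans_lt (max_lt (h a (Finset.mem_insert_self a s))
      (ih fun i hi => h i (Finset.mem_insert_of_mem hi)))

lemma nu_add_eq (S : Sharp p C L) (hp : ‖(p : C)‖ < 1) {u v : L} (h : nu S v < nu S u) :
    nu S (u + v) = nu S u := by
  refine le_antisymm (nu_add_le S hp le_rfl h.le) ?_
  have h1 := nu_add S hp (u + v) (-v)
  rw [add_neg_cancel_right, nu_neg] at h1
  rcases le_max_iff.1 h1 with h2 | h2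
  · exact h2
  · linarith

lemma norm_sum_le' {ι : Type} (s : Finset ι) (u : ι → C)
    {B : ℝ} (hB : 0 ≤ B) (h : ∀ i ∈ s, ‖u i‖ ≤ B) : ‖∑ i ∈ s, u i‖ ≤ B := by
  classical
  induction s using Finset.induction_on with
  | empty => simpa using hB
  | insert a s ha ih =>
    rw [Finset.sum_insert ha]
    exact (IsUltrametricDist.norm_add_le_max _ _).trans (max_le (h a (Finset.mem_insert_self a s))
      (ih fun i hi => h i (Finset.mem_insert_of_mem hi)))

omit [IsUltrametricDist C] in
/-- weighted product bound -/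
lemma prod_bound {ι : Type} [Fintype ι] (x : ι → ℝ) (hx : ∀ i, 0 ≤ x i) {q : ℕ} (hq : q ≠ 0)
    {M : ℝ} (hM : 0 ≤ M) (h : ∀ i, x i ^ q ≤ M) (α : ι → ℕ) (hα : ∑ i, α i = q) :
    ∏ i, x i ^ α i ≤ M := by
  have h1 : (∏ i, x i ^ α i) ^ q ≤ M ^ q := by
    calc (∏ i, x i ^ α i) ^ q = ∏ i, (x i ^ q) ^ α i := by
          rw [← Finset.prod_pow]
          refine Finset.prod_congr rfl fun i _ => ?_
          rw [← pow_mul, ← pow_mul, mul_comm]
      _ ≤ ∏ i, M ^ α i := Finset.prod_le_prod (fun i _ => pow_nonneg (pow_nonneg (hx i) _) _)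
          fun i _ => pow_le_pow_left₀ (pow_nonneg (hx i) _) (h i) _
      _ = M ^ q := by rw [Finset.prod_pow_eq_pow_sum, hα]
  exact (pow_le_pow_iff_left₀ (Finset.prod_nonneg fun i _ => pow_nonneg (hx i) _) hM hq).1 h1

/-- the state of the induction -/
def State (S : Sharp p C L) {σ M : Type} [Fintype σ] [AddCommMonoid M] (w : σ → M) (d : M)
    (h : MvPolynomial σ C) (N n : ℕ) : Prop :=
  ∃ (ι : Type) (_ : Fintype ι) (_ : DecidableEq ι) (main : (σ → L) → L) (b : ι → (σ → L) → L),
    Rad p w d main ∧ (∀ j, Rad p w d (b j)) ∧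
    ∀ z : σ → L, (∀ i, nu S (z i) ≤ 1) →
      ‖eval (fun i => S.sh (z i)) h - S.sh (main z) - ∑ j, S.sh (b j z)‖ ≤ ‖(p : C)‖ ^ N ∧
      nu S (main z) ≤ 1 ∧ (∀ j, nu S (b j z) ≤ 1) ∧
      ((0 < nu S (main z) ∧ ∀ j, nu S (b j z) < nu S (main z)) ∨
        (nu S (main z) ≤ ‖(p : C)‖ ^ n ∧ ∀ j, nu S (b j z) ≤ ‖(p : C)‖ ^ n))

omit [IsUltrametricDist C] in
lemma state_zero [Fact p.Prime] [CharP L p] (hR : S_RAD) (S : Sharp p C L)
    {σ M : Type} [Fintype σ]
    [AddCommMonoid M] (w : σ → M) (d : M) (h : MvPolynomial σ C)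
    (hh : IsWeightedHomogeneous w h d) (hc : ∀ α, ‖h.coeff α‖ ≤ 1) (N : ℕ) :
    State S w d h N 0 := by
  classical
  choose c hc' using fun α : σ →₀ ℕ => S.surj (h.coeff α)
  have hb : ∀ (j : {α // α ∈ h.support}) (z : σ → L), (∀ i, nu S (z i) ≤ 1) →
      nu S (c j * ∏ i, z i ^ (j : σ →₀ ℕ) i) ≤ 1 := by
    intro j z hz
    rw [nu_mul, nu_prod]
    have h1 : nu S (c j) ≤ 1 := by
      unfold nu; rw [hc']; exact hc _
    have h2 : ∏ i, nu S (z i ^ (j : σ →₀ ℕ) i) ≤ 1 := by
      refine Finset.prod_le_one (fun i _ => nu_nonneg S _) fun i _ => ?_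
      rw [nu_pow]
      exact pow_le_one₀ (nu_nonneg S _) (hz i)
    exact mul_le_one₀ h1 (Finset.prod_nonneg fun i _ => nu_nonneg S _) h2
  refine ⟨{α // α ∈ h.support}, inferInstance, inferInstance, fun _ => 0,
    fun j z => c j * ∏ i, z i ^ (j : σ →₀ ℕ) i, ?_, ?_, ?_⟩
  · have := (hR p L σ M w d).2.1 Empty (fun i => i.elim) (fun i => i.elim)
    simpa using this
  · intro j
    exact (hR p L σ M w d).1 (c j) j (hh (mem_support_iff.1 j.2))
  · intro z hz
    have e : ∑ j : {α // α ∈ h.support}, S.sh (c j * ∏ i, z i ^ (j : σ →₀ ℕ) i) =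
        eval (fun i => S.sh (z i)) h := by
      rw [eval_eq', ← Finset.sum_coe_sort h.support]
      refine Finset.sum_congr rfl fun j _ => ?_
      rw [map_mul, hc', map_prod]
      congr 1
      exact Finset.prod_congr rfl fun i _ => map_pow _ _ _
    refine ⟨?_, ?_, fun j => hb j z hz, Or.inr ⟨?_, fun j => ?_⟩⟩
    · rw [e, map_zero, sub_zero, sub_self, norm_zero]
      positivity
    · rw [nu_zero]; exact zero_le_one
    · rw [nu_zero]; simp
    · rw [pow_zero]; exact hb j z hz

lemma state_succ [Fact p.Prime] [CharP L p] [IsAlgClosed L] (hS : S_SUM) (hR : S_RAD)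
    (S : Sharp p C L) (hp0 : 0 < ‖(p : C)‖) (hp : ‖(p : C)‖ < 1)
    {σ M : Type} [Fintype σ]
    [AddCommMonoid M] (w : σ → M) (d : M) (h : MvPolynomial σ C) (N n : ℕ)
    (hst : State S w d h N n) : State S w d h N (n + 1) := by
  classical
  obtain ⟨ι, _, _, main, b, hmR, hbR, hst⟩ := hst
  have hq0 : 0 < p ^ N := pow_pos (Fact.out : p.Prime).pos N
  choose rt hrt using fun u : L => IsAlgClosed.exists_pow_nat_eq u hq0
  let u : Option ι → (σ → L) → L := fun i z => i.elim (main z) (fun j => b j z)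
  have huR : ∀ i, Rad p w d (u i) := by
    intro i
    cases i with
    | none => exact hmR
    | some j => exact hbR j
  let v : Option ι → (σ → L) → L := fun i z => rt (u i z)
  have hv : ∀ i z, v i z ^ p ^ N = u i z := fun i z => hrt _
  obtain ⟨γ, hγ, hsum⟩ := hS p C L S hp0 hp N (Option ι)
  let F : Finset (Option ι → ℕ) := (Fintype.piFinset fun _ : Option ι =>
    Finset.range (p ^ N + 1)).filter fun α => (∑ i, α i = p ^ N) ∧ ∀ i, α i ≠ p ^ N
  -- bounds
  have hb' : ∀ (α : {α // α ∈ F}) (z : σ → L) (B : ℝ), 0 ≤ B → (∀ i, nu S (u i z) ≤ B) →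
      nu S (γ α * ∏ i, v i z ^ (α : Option ι → ℕ) i) ≤ ‖(p : C)‖ * B := by
    intro α z B hB hu
    rw [nu_mul, nu_prod]
    have hα : ∑ i, (α : Option ι → ℕ) i = p ^ N := (Finset.mem_filter.1 α.2).2.1
    have h2 : ∏ i, nu S (v i z ^ (α : Option ι → ℕ) i) ≤ B := by
      have := prod_bound (fun i => nu S (v i z)) (fun i => nu_nonneg S _) hq0.ne' hB
        (fun i => by rw [← nu_pow, hv]; exact hu i) (α : Option ι → ℕ) hα
      refine le_trans (le_of_eq ?_) this
      exact Finset.prod_congr rfl fun i _ => nu_pow S _ _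
    exact mul_le_mul (hγ α) h2 (Finset.prod_nonneg fun i _ => nu_nonneg S _) hp0.le
  have hsplit : ∀ z, ∑ i, u i z = main z + ∑ j, b j z := by
    intro z
    rw [Fintype.sum_option]
    rfl
  refine ⟨{α // α ∈ F}, inferInstance, inferInstance, fun z => ∑ i, u i z,
    fun α z => γ α * ∏ i, v i z ^ (α : Option ι → ℕ) i, ?_, ?_, ?_⟩
  · exact (hR p L σ M w d).2.1 (Option ι) u huR
  · intro α
    exact (hR p L σ M w d).2.2 (Option ι) N u v α (γ α) huR hv (Finset.mem_filter.1 α.2).2.1
  · intro z hz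
    obtain ⟨h1, h2, h3, h4⟩ := hst z hz
    have hu1 : ∀ i, nu S (u i z) ≤ 1 := by
      intro i
      cases i with
      | none => exact h2
      | some j => exact h3 j
    have h5 := hsum (fun i => v i z) 1 zero_le_one (fun i => by
      have := hu1 i
      rw [← hv i z, nu_pow] at this
      exact this)
    have e1 : ∑ i, S.sh (v i z ^ p ^ N) = S.sh (main z) + ∑ j, S.sh (b j z) := by
      rw [Finset.sum_congr rfl fun i _ => congrArg S.sh (hv i z), Fintype.sum_option]
      rfl
    have e2 : ∑ i, v i z ^ p ^ N = ∑ i, u i z := Finset.sum_congr rfl fun i _ => hv i z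
    rw [e1, e2, mul_one] at h5
    have e3 : ∑ α : {α // α ∈ F}, S.sh (γ α * ∏ i, v i z ^ (α : Option ι → ℕ) i) =
        ∑ α ∈ F, S.sh (γ α * ∏ i, v i z ^ α i) :=
      Finset.sum_coe_sort F (fun α => S.sh (γ α * ∏ i, v i z ^ α i))
    have hPP : ‖(p : C)‖ ^ (N + 1) ≤ ‖(p : C)‖ ^ N := pow_le_pow_of_le_one hp0.le hp.le (by omega)
    refine ⟨?_, ?_, ?_, ?_⟩
    · rw [e3]
      have e4 : eval (fun i => S.sh (z i)) h - S.sh (∑ i, u i z) -
          ∑ α ∈ F, S.sh (γ α * ∏ i, v i z ^ α i) =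
          (eval (fun i => S.sh (z i)) h - S.sh (main z) - ∑ j, S.sh (b j z)) +
          (S.sh (main z) + ∑ j, S.sh (b j z) - (S.sh (∑ i, u i z) +
            ∑ α ∈ F, S.sh (γ α * ∏ i, v i z ^ α i))) := by ring
      rw [e4]
      exact (IsUltrametricDist.norm_add_le_max _ _).trans (max_le h1 (h5.trans hPP))
    · exact nu_sum_le S hp _ _ zero_le_one fun i _ => hu1 i
    · intro α
      refine (hb' α z 1 zero_le_one hu1).trans ?_
      rw [mul_one]; exact hp.le
    · rcases h4 with ⟨h6, h7⟩ | ⟨h6, h7⟩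
      · left
        have e5 : nu S (∑ i, u i z) = nu S (main z) := by
          rw [hsplit]
          exact nu_add_eq S hp (nu_sum_lt S hp _ _ h6 fun j _ => h7 j)
        rw [e5]
        refine ⟨h6, fun α => ?_⟩
        have := hb' α z (nu S (main z)) h6.le (fun i => by
          cases i with
          | none => exact le_rfl
          | some j => exact (h7 j).le)
        nlinarith
      · have h8 : ∀ α : {α // α ∈ F}, nu S (γ α * ∏ i, v i z ^ (α : Option ι → ℕ) i) ≤
            ‖(p : C)‖ ^ (n + 1) := by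
          intro α
          have := hb' α z (‖(p : C)‖ ^ n) (by positivity) (fun i => by
            cases i with
            | none => exact h6
            | some j => exact h7 j)
          rw [pow_succ']
          exact this
        by_cases h9 : nu S (∑ i, u i z) ≤ ‖(p : C)‖ ^ (n + 1)
        · right
          exact ⟨h9, h8⟩
        · left
          push Not at h9
          exact ⟨lt_of_le_of_lt (by positivity) h9, fun α => (h8 α).trans_lt h9⟩

end App101

open App101 in
/-- APP -/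
theorem t_APP : S_SUM → S_RAD → S_APP := by
  classical
  intro hS hR p _ C L _ _ _ _ _ S hp0 hp σ _ M _ w d h hh hc N
  have hst : ∀ n, State S w d h N n := by
    intro n
    induction n with
    | zero => exact state_zero hR S w d h hh hc N
    | succ n ih => exact state_succ hS hR S hp0 hp w d h N n ih
  obtain ⟨ι, _, _, main, b, ⟨s, G, hG, hG2⟩, _, hz⟩ := hst N
  refine ⟨s, G, hG, fun z hz1 hz0 => ?_⟩
  obtain ⟨h1, _, _, h4⟩ := hz z hz1
  have hm : main z = 0 := by
    have := hG2 z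
    rw [hz0] at this
    exact pow_eq_zero_iff (pow_ne_zero _ (Fact.out : p.Prime).ne_zero) |>.1 this
  rcases h4 with ⟨h5, _⟩ | ⟨_, h5⟩
  · rw [hm, nu_zero] at h5
    exact absurd h5 (lt_irrefl _)
  · rw [hm, map_zero, sub_zero] at h1
    have e : MvPolynomial.eval (fun i => S.sh (z i)) h =
        (MvPolynomial.eval (fun i => S.sh (z i)) h - ∑ j, S.sh (b j z)) + ∑ j, S.sh (b j z) := by
      ring
    rw [e]
    exact (IsUltrametricDist.norm_add_le_max _ _).trans
      (max_le h1 (norm_sum_le' _ _ (by positivity) fun j _ => h5 j))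

end Pool.Agent.W476.TP
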